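import Pool.Agent.Helper31.MA2.Low3

/-!
# MP_57adf2_an, Q2: the limit of the averages `R_N(A)` exists and is strictly positive

Positive answer to Q2. Sketch (existence of the limit is a starting result; the new part is the
positivity).

* Call `g ∈ L²` *strongly nearly periodic* if for every `ε` there is `Q₀` such that for every
  multiple `W` of `Q₀` and every residue class `κ` modulo `W`, coprime to `W` and `≡ 1 mod Q₀`, one
  has `T_k g = g` for all `k ≡ κ mod W` up to a proportion `ε`. By the spectral theorem and a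
  uniform Halász theorem, if `F₃` is orthogonal to all of them then the averages of
  `T_{mn} F₄ · T_{m+n} F₃ · T_m F₁ · T_n F₂` tend to zero. The orthogonal projection `f` of `1_A` has
  values in `[0, 1]`, so in `R_N(A)` one may replace `T_{m+n} 1_A` by `T_{m+n} f`.
* Let `g` be close to `f`, `Q₀` its modulus, `W = Q₀ ^ J`. Restrict to `m ≡ 1 mod W` (without small
  factors) and to `n = Q₀ ^ h n'`, with a trivial label of `n'`, `1 ≤ h < J`. There `m + n` is
  coprime to `W` and `≡ 1 mod Q₀`, so that `T_{m+n} f` may be replaced by `f`.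
* The averages over `n'` are given by a cube averages theorem: they are bounded from below by
  averages over `m` of `⟨y_m, T_{Q₀}^h y_m⟩`, where `y_m` is the conditional expectation of
  `f 1_A T_m 1_A` on an invariant factor. A van der Corput argument (over `h < J`) shows that for some
  `h` the average is positive.
-/

set_option autoImplicit false
set_option linter.unusedSectionVars false

open Finset Filter Topology MeasureTheory
open scoped ENNReal InnerProductSpace

namespace Pool.Agent.Results.MP_57adf2_an.PositiveRecurrence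

open Pool.Agent.K7.H83.MA
open Pool.Agent.Helper31.MA2

/-- A multiplicative measure preserving action (identities between maps are understood almost
everywhere): `T n`, `n ≥ 1`, are measure preserving maps, invertible modulo null sets, with
`T 1 = id` and `T (m n) = T m ∘ T n`. -/
structure MultAction {X : Type*} [MeasurableSpace X] (μ : Measure X) (T : ℕ → X → X) : Prop where
  mp : ∀ n, 0 < n → MeasurePreserving (T n) μ μ
  inv : ∀ n, 0 < n → ∃ S : X → X, MeasurePreserving S μ μ ∧ (∀ᵐ x ∂μ, S (T n x) = x) ∧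
    (∀ᵐ x ∂μ, T n (S x) = x)
  one : ∀ᵐ x ∂μ, T 1 x = x
  mul : ∀ m n, 0 < m → 0 < n → ∀ᵐ x ∂μ, T (m * n) x = T m (T n x)

/-- The action is finitely generated: up to equality almost everywhere, only finitely many maps
occur among the `T p`, `p` prime. -/
def FinGen {X : Type*} [MeasurableSpace X] (μ : Measure X) (T : ℕ → X → X) : Prop :=
  ∃ V : Set (X → X), V.Finite ∧ ∀ p : ℕ, p.Prime → ∃ S ∈ V, T p =ᵐ[μ] S

/-- The average `R_N(A)`. -/
noncomputable def RAv {X : Type*} [MeasurableSpace X] (μ : Measure X) (T : ℕ → X → X) (A : Set X)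
    (N : ℕ) : ℝ :=
  1 / (N : ℝ) ^ 2 * ∑ m ∈ Icc 1 N, ∑ n ∈ Icc 1 N,
    μ.real (A ∩ T (m * n) ⁻¹' A ∩ T (m + n) ⁻¹' A ∩ T m ⁻¹' A ∩ T n ⁻¹' A)

theorem exists_col {X : Type*} [MeasurableSpace X] {μ : Measure X} {T : ℕ → X → X}
    (hT : MultAction μ T) (hfg : FinGen μ T) : ∃ (r : ℕ) (c : ℕ → Fin r), Sys c μ T := by
  classical
  obtain ⟨V, hV, hVT⟩ := hfg
  have h1 : ∀ p : ℕ, ∃ S : hV.toFinset, p.Prime → T p =ᵐ[μ] (S : X → X) := by
    intro p
    by_cases hp : p.Prime
    · obtain ⟨S, hS, hTS⟩ := hVT p hp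
      exact ⟨⟨S, hV.mem_toFinset.2 hS⟩, fun _ => hTS⟩
    · obtain ⟨S, hS, hTS⟩ := hVT 2 Nat.prime_two
      exact ⟨⟨S, hV.mem_toFinset.2 hS⟩, fun h => absurd h hp⟩
  choose S hS using h1
  refine ⟨hV.toFinset.card, fun p => hV.toFinset.equivFin (S p), hT.mp, hT.inv, hT.one, hT.mul,
    fun p q hp hq hpq => ?_⟩
  have h2 : S p = S q := hV.toFinset.equivFin.injective hpq
  have h3 := hS p hp
  rw [h2] at h3
  exact h3.trans (hS q hq).symm

theorem RM_ind {X : Type*} [MeasurableSpace X] {A : Set X} (hA : MeasurableSet A) :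
    RM (A.indicator fun _ => (1 : ℝ)) :=
  ⟨measurable_const.indicator hA, fun x => Set.indicator_nonneg (fun _ _ => zero_le_one) x,
    fun x => by by_cases h : x ∈ A <;> simp [h]⟩

theorem RAv_eq {X : Type*} [MeasurableSpace X] [StandardBorelSpace X] {μ : Measure X}
    [IsProbabilityMeasure μ] {T : ℕ → X → X} {r : ℕ} {c : ℕ → Fin r} (h : Sys c μ T) {A : Set X}
    (hA : MeasurableSet A) (N : ℕ) :
    RAv μ T A N = (⟪bl μ (rc (A.indicator fun _ => (1 : ℝ))),
      SN μ T (rc (A.indicator fun _ => (1 : ℝ))) (rc (A.indicator fun _ => (1 : ℝ)))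
        (rc (A.indicator fun _ => (1 : ℝ))) N
        (bl μ (rc (A.indicator fun _ => (1 : ℝ))))⟫_ℂ).re := by
  classical
  set φ : X → ℝ := A.indicator fun _ => (1 : ℝ) with hφd
  have hφ : RM φ := RM_ind hA
  rw [SN_re h]
  unfold RAv
  have hI : (Icc 1 N : Finset ℕ) = Ioc 0 N := by
    ext k; rw [mem_Icc, mem_Ioc]; omega
  have hN : 1 / (N : ℝ) ^ 2 = (N : ℝ)⁻¹ * (N : ℝ)⁻¹ := by
    rw [one_div, sq, mul_inv]
  rw [hI, hN]
  congr 1
  refine Finset.sum_congr rfl fun m hm => Finset.sum_congr rfl fun n hn => ?_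
  rw [mem_Ioc] at hm hn
  have hmm := (h.mp m hm.1).measurable
  have hnn := (h.mp n hn.1).measurable
  have hpp := (h.mp (m * n) (Nat.mul_pos hm.1 hn.1)).measurable
  have hss := (h.mp (m + n) (by omega)).measurable
  rw [koop_bl (h.mp _ (by omega)) hφ.bm, mulB_bl (ww_BM h hφ.bm hφ.bm hφ.bm hm.1 hn.1)
    (hφ.bm.comp hss)]
  have h2 : (fun x => ww T (rc φ) (rc φ) (rc φ) m n x * rc φ (T (m + n) x)) =
      rc (fun x => (φ (T m x) * (φ (T n x) * φ (T (m * n) x))) * φ (T (m + n) x)) := by
    funext x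
    unfold ww rc
    push_cast
    ring
  rw [h2, inner_rc hφ (RM.mul (RM.mul (hφ.comp hmm) (RM.mul (hφ.comp hnn) (hφ.comp hpp)))
    (hφ.comp hss)), Complex.ofReal_re]
  set E : Set X := A ∩ T (m * n) ⁻¹' A ∩ T (m + n) ⁻¹' A ∩ T m ⁻¹' A ∩ T n ⁻¹' A with hE
  have hEm : MeasurableSet E :=
    (((hA.inter (hpp hA)).inter (hss hA)).inter (hmm hA)).inter (hnn hA)
  have h3 : (fun x => φ x * ((φ (T m x) * (φ (T n x) * φ (T (m * n) x))) * φ (T (m + n) x))) =
      E.indicator fun _ => (1 : ℝ) := by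
    funext x
    rw [hφd]
    by_cases h1 : x ∈ A
    · by_cases h2 : T (m * n) x ∈ A
      · by_cases h3 : T (m + n) x ∈ A
        · by_cases h4 : T m x ∈ A
          · by_cases h5 : T n x ∈ A
            · have h6 : x ∈ E := ⟨⟨⟨⟨h1, h2⟩, h3⟩, h4⟩, h5⟩
              simp only [Set.indicator_of_mem h1, Set.indicator_of_mem h2, Set.indicator_of_mem h3,
                Set.indicator_of_mem h4, Set.indicator_of_mem h5, Set.indicator_of_mem h6, mul_one]
            · have h6 : x ∉ E := fun h => h5 h.2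
              simp only [Set.indicator_of_notMem h5, Set.indicator_of_notMem h6, mul_zero, zero_mul]
          · have h6 : x ∉ E := fun h => h4 h.1.2
            simp only [Set.indicator_of_notMem h4, Set.indicator_of_notMem h6, mul_zero, zero_mul]
        · have h6 : x ∉ E := fun h => h3 h.1.1.2
          simp only [Set.indicator_of_notMem h3, Set.indicator_of_notMem h6, mul_zero]
      · have h6 : x ∉ E := fun h => h2 h.1.1.1.2
        simp only [Set.indicator_of_notMem h2, Set.indicator_of_notMem h6, mul_zero, zero_mul]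
    · have h6 : x ∉ E := fun h => h1 h.1.1.1.1
      simp only [Set.indicator_of_notMem h1, Set.indicator_of_notMem h6, zero_mul]
  rw [h3, integral_indicator hEm, integral_const]
  simp

/-- **Q2, answered in the affirmative.** Let `(X, μ)` be a standard Borel probability space and
`(T n)` a finitely generated multiplicative measure preserving action on it. Then for every
(null-)measurable set `A` with `μ(A) > 0` the averages
`R_N(A) = N⁻² ∑_{m, n ≤ N} μ(A ∩ T_{mn}⁻¹A ∩ T_{m+n}⁻¹A ∩ T_m⁻¹A ∩ T_n⁻¹A)` converge, as `N → ∞`, to a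
strictly positive limit. -/
theorem result {X : Type*} [MeasurableSpace X] [StandardBorelSpace X] (μ : Measure X)
    [IsProbabilityMeasure μ] (T : ℕ → X → X) (hT : MultAction μ T) (hfg : FinGen μ T)
    (A : Set X) (hA : NullMeasurableSet A μ) (hpos : 0 < μ A) :
    ∃ L : ℝ, 0 < L ∧ Tendsto (RAv μ T A) atTop (𝓝 L) := by
  obtain ⟨r, c, h⟩ := exists_col hT hfg
  set B : Set X := toMeasurable μ A with hBd
  have hB : MeasurableSet B := measurableSet_toMeasurable μ A
  have hBA : B =ᵐ[μ] A := hA.toMeasurable_ae_eq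
  have hAB : ∀ N, RAv μ T A N = RAv μ T B N := by
    intro N
    unfold RAv
    congr 1
    refine Finset.sum_congr rfl fun m hm => Finset.sum_congr rfl fun n hn => ?_
    rw [mem_Icc] at hm hn
    refine measureReal_congr ?_
    have h1 : ∀ k, 0 < k → (T k ⁻¹' A : Set X) =ᵐ[μ] (T k ⁻¹' B : Set X) := fun k hk =>
      (h.mp k hk).quasiMeasurePreserving.preimage_ae_eq hBA.symm
    exact (((hBA.symm.inter (h1 _ (Nat.mul_pos hm.1 hn.1))).inter (h1 _ (by omega))).inter
      (h1 m hm.1)).inter (h1 n hn.1)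
  have hposB : 0 < μ B := by rw [measure_congr hBA]; exact hpos
  set φ : X → ℝ := B.indicator fun _ => (1 : ℝ) with hφd
  have hφ : RM φ := RM_ind hB
  have hint : 0 < ∫ x, φ x ∂μ := by
    rw [hφd, integral_indicator hB, integral_const]
    simp only [measureReal_restrict_apply MeasurableSet.univ, Set.univ_inter, smul_eq_mul, mul_one]
    exact ENNReal.toReal_pos hposB.ne' (measure_ne_top μ B)
  obtain ⟨V, hV⟩ := SN_conv h hφ.bm hφ.bm hφ.bm (bl μ (rc φ))
  obtain ⟨c₀, hc₀, N₀, hN₀⟩ := lower h hφ hint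
  have h1 : Tendsto (fun N => (⟪bl μ (rc φ), SN μ T (rc φ) (rc φ) (rc φ) N (bl μ (rc φ))⟫_ℂ).re)
      atTop (𝓝 (⟪bl μ (rc φ), V⟫_ℂ).re) :=
    (Complex.continuous_re.tendsto _).comp (Tendsto.inner tendsto_const_nhds hV)
  refine ⟨(⟪bl μ (rc φ), V⟫_ℂ).re, ?_, ?_⟩
  · refine lt_of_lt_of_le hc₀ (ge_of_tendsto h1 ?_)
    exact eventually_atTop.2 ⟨N₀, hN₀⟩
  · refine h1.congr fun N => ?_
    rw [hAB, RAv_eq h hB]

end Pool.Agent.Results.MP_57adf2_an.PositiveRecurrence
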